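import Pool.Agent.W200.MR.Stm

/-!
# Weights: `S_MV1 → S_WT`
-/

open Finset Filter Topology MeasureTheory

namespace Pool.Agent.W554.MR

open Pool.Agent.W200.MR

theorem pw_mul (t : ℝ) (a b : ℕ) (ha : 1 ≤ a) (hb : 1 ≤ b) : pw t (a * b) = pw t a * pw t b := by
  unfold pw
  rw [← Complex.exp_add]
  congr 1
  have h1 : (a : ℝ) ≠ 0 := by positivity
  have h2 : (b : ℝ) ≠ 0 := by positivity
  rw [Nat.cast_mul, Real.log_mul h1 h2]
  push_cast
  ring

theorem t_WT : S_MV1 → S_WT := by
  classical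
  intro hMV T m U hm hU e he
  obtain ⟨hne, hUs, -, hUp⟩ := hU
  have hcard : (0 : ℝ) < U.card := by exact_mod_cast hne.card_pos
  refine ⟨?_, ?_, ?_⟩
  · have h1 := hMV U (fun _ => 1) (fun k hk => (hUs k hk).1)
    have h2 : (1 - e) * (U.card : ℝ) < ∑ k ∈ U, ‖(1 : ℂ)‖ ^ 2 := by
      simp only [norm_one, one_pow, sum_const, nsmul_eq_mul, mul_one]
      nlinarith
    have h3 := h1.eventually_const_lt h2
    filter_upwards [h3] with S hS
    simpa using hS.le
  · intro p hp hpT
    have hp1 : 1 ≤ p := hp.one_lt.le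
    obtain ⟨h4, h5⟩ := hUp p hp hpT
    set V := U.image (fun u => p * u) with hV
    have h1 := hMV (V ∪ U) (fun k => (if k ∈ V then 1 else 0) - (if k ∈ U then 1 else 0)) (by
      intro k hk
      rw [mem_union] at hk
      rcases hk with hk | hk
      · rw [hV, mem_image] at hk
        obtain ⟨u, hu, rfl⟩ := hk
        exact Nat.mul_pos hp1 (hUs u hu).1
      · exact (hUs k hk).1)
    have h2 : ∑ k ∈ V ∪ U, ‖((if k ∈ V then 1 else 0) - (if k ∈ U then 1 else 0) : ℂ)‖ ^ 2 <
        (2 / m + e) * (U.card : ℝ) := by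
      have h6 : ∀ k ∈ V ∪ U, ‖((if k ∈ V then 1 else 0) - (if k ∈ U then 1 else 0) : ℂ)‖ ^ 2 =
          (if k ∈ V \ U then (1 : ℝ) else 0) + (if k ∈ U \ V then (1 : ℝ) else 0) := by
        intro k _
        by_cases h7 : k ∈ V <;> by_cases h8 : k ∈ U <;> simp [h7, h8]
      rw [sum_congr rfl h6, sum_add_distrib, ← sum_filter, ← sum_filter]
      simp only [sum_const, nsmul_eq_mul, mul_one]
      have h9 : (((V ∪ U).filter (fun k => k ∈ V \ U)).card : ℝ) ≤ (V \ U).card := by
        exact_mod_cast card_le_card (fun k hk => (mem_filter.1 hk).2)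
      have h10 : (((V ∪ U).filter (fun k => k ∈ U \ V)).card : ℝ) ≤ (U \ V).card := by
        exact_mod_cast card_le_card (fun k hk => (mem_filter.1 hk).2)
      have h11 : (2 / (m : ℝ) + e) * (U.card : ℝ) = U.card / m + U.card / m + e * U.card := by ring
      have h12 : 0 < e * (U.card : ℝ) := mul_pos he hcard
      linarith
    have h3 := h1.eventually_lt_const h2
    filter_upwards [h3] with S hS
    refine le_of_eq_of_le ?_ hS.le
    congr 1
    apply intervalIntegral.integral_congr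
    intro t _
    dsimp only
    rw [← mul_pow, ← norm_mul]
    congr 2
    simp only [sub_mul, ite_mul, one_mul, zero_mul, sum_sub_distrib]
    rw [← sum_filter, ← sum_filter, mul_sub, mul_one]
    have e1 : (V ∪ U).filter (fun k => k ∈ V) = V := by
      ext k; simp only [mem_filter, mem_union]; tauto
    have e2 : (V ∪ U).filter (fun k => k ∈ U) = U := by
      ext k; simp only [mem_filter, mem_union]; tauto
    rw [e1, e2, hV, sum_image (fun a _ b _ hab => Nat.eq_of_mul_eq_mul_left hp.pos hab), sum_mul]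
    congr 1
    refine sum_congr rfl fun u hu => ?_
    rw [pw_mul t p u hp1 (hUs u hu).1, mul_comm]
  · intro N B α hB hBs hα
    have hB1 : ∀ n ∈ B, 1 ≤ n := fun n hn => (mem_Icc.1 (hB hn)).1
    set K := (U ×ˢ B).image (fun q : ℕ × ℕ => q.1 * q.2) with hK
    set fib : ℕ → Finset (ℕ × ℕ) := fun k => (U ×ˢ B).filter (fun q => q.1 * q.2 = k) with hfib
    have h1 := hMV K (fun k => ∑ q ∈ fib k, α q.2) (by
      intro k hk
      rw [hK, mem_image] at hk
      obtain ⟨q, hq, rfl⟩ := hk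
      rw [mem_product] at hq
      exact Nat.mul_pos (hUs _ hq.1).1 (hB1 _ hq.2))
    have h2 : ∑ k ∈ K, ‖∑ q ∈ fib k, α q.2‖ ^ 2 < (PA T N + e) * (U.card : ℝ) := by
      set P := ((U ×ˢ B) ×ˢ (U ×ˢ B)).filter
        (fun x : (ℕ × ℕ) × (ℕ × ℕ) => x.1.1 * x.1.2 = x.2.1 * x.2.2) with hP
      have h6 : ∑ k ∈ K, ‖∑ q ∈ fib k, α q.2‖ ^ 2 ≤ ∑ k ∈ K, ((fib k).card : ℝ) ^ 2 := by
        refine sum_le_sum fun k _ => ?_
        refine pow_le_pow_left₀ (norm_nonneg _) ?_ 2
        calc ‖∑ q ∈ fib k, α q.2‖ ≤ ∑ q ∈ fib k, ‖α q.2‖ := norm_sum_le _ _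
          _ ≤ ∑ q ∈ fib k, (1 : ℝ) := sum_le_sum fun q _ => hα _
          _ = (fib k).card := by simp
      have h7 : P.card = ∑ k ∈ K, (fib k).card ^ 2 := by
        rw [card_eq_sum_card_fiberwise (f := fun x : (ℕ × ℕ) × (ℕ × ℕ) => x.1.1 * x.1.2) (t := K)]
        · refine sum_congr rfl fun k _ => ?_
          rw [sq, ← card_product]
          congr 1
          ext x
          simp only [hP, hfib, mem_filter, mem_product]
          constructor
          · rintro ⟨⟨⟨h8, h9⟩, h10⟩, h11⟩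
            exact ⟨⟨h8, h11⟩, h9, by rw [← h10, h11]⟩
          · rintro ⟨⟨h8, h11⟩, h9, h10⟩
            exact ⟨⟨⟨h8, h9⟩, by rw [h11, h10]⟩, h11⟩
        · intro x hx
          rw [mem_coe, hP, mem_filter, mem_product] at hx
          rw [mem_coe, hK, mem_image]
          exact ⟨x.1, hx.1.1, rfl⟩
      have h8 : P.card ≤ PA T N * U.card := by
        unfold PA
        rw [← card_product]
        refine card_le_card_of_injOn
          (fun x : (ℕ × ℕ) × (ℕ × ℕ) => ((x.1.2, x.2.2), x.1.1)) ?_ ?_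
        · intro x hx
          rw [mem_coe, hP, mem_filter, mem_product, mem_product, mem_product] at hx
          obtain ⟨⟨⟨h9, h10⟩, h11, h12⟩, h13⟩ := hx
          rw [mem_coe, mem_product, mem_filter, mem_product]
          exact ⟨⟨⟨hB h10, hB h12⟩, hBs _ h10, hBs _ h12, x.1.1, x.2.1, (hUs _ h9).1, (hUs _ h11).1,
            (hUs _ h9).2, (hUs _ h11).2, h13⟩, h9⟩
        · intro x hx y hy hxy
          rw [mem_coe, hP, mem_filter, mem_product, mem_product, mem_product] at hx hy
          obtain ⟨⟨u, n⟩, ⟨u', n'⟩⟩ := x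
          obtain ⟨⟨v, l⟩, ⟨v', l'⟩⟩ := y
          simp only [Prod.mk.injEq] at hxy hx hy ⊢
          obtain ⟨⟨h14, h15⟩, h16⟩ := hxy
          subst h14 h15 h16
          have h17 : u' * n' = v' * n' := by rw [← hx.2, ← hy.2]
          have h18 : 0 < n' := hB1 _ hx.1.2.2
          exact ⟨⟨rfl, rfl⟩, Nat.eq_of_mul_eq_mul_right h18 h17, rfl⟩
      have h9 : ∑ k ∈ K, ((fib k).card : ℝ) ^ 2 = (P.card : ℝ) := by
        rw [h7]; push_cast; rfl
      have h10 : (P.card : ℝ) ≤ PA T N * U.card := by exact_mod_cast h8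
      have h12 : 0 < e * (U.card : ℝ) := mul_pos he hcard
      rw [add_mul]
      linarith
    have h3 := h1.eventually_lt_const h2
    filter_upwards [h3] with S hS
    refine le_of_eq_of_le ?_ hS.le
    congr 1
    apply intervalIntegral.integral_congr
    intro t _
    dsimp only
    rw [← mul_pow, ← norm_mul]
    congr 2
    have h4 : ∑ k ∈ K, (∑ q ∈ fib k, α q.2) * pw t k =
        ∑ k ∈ K, ∑ q ∈ fib k, α q.2 * pw t (q.1 * q.2) := by
      refine sum_congr rfl fun k _ => ?_
      rw [sum_mul]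
      refine sum_congr rfl fun q hq => ?_
      rw [hfib, mem_filter] at hq
      rw [hq.2]
    rw [h4, hfib]
    rw [sum_fiberwise_of_maps_to (g := fun q : ℕ × ℕ => q.1 * q.2) (t := K)
      (f := fun q : ℕ × ℕ => α q.2 * pw t (q.1 * q.2)) (fun q hq => mem_image_of_mem _ hq)]
    rw [sum_product, sum_mul_sum]
    refine sum_congr rfl fun u hu => sum_congr rfl fun n hn => ?_
    rw [pw_mul t u n (hUs u hu).1 (hB1 n hn)]
    ring

end Pool.Agent.W554.MR
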